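import Mathlib

/-!
# Squad THX: the number of number fields of degree `n` and bounded discriminant, with an exponent
of size `log ^ 2 n`: definitions and statements of the modules (see PAPER_THX.md)
-/

namespace Pool.Agent.THX

open NumberField Module Polynomial

noncomputable section

/-- The ring of all algebraic integers. -/
abbrev OO : Type := integralClosure ℤ ℂ

/-- Every number field of degree `n` with discriminant at most `N` has an integral generator whose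
minimal polynomial lies in a set of at most `C N ^ E` monic polynomials of degree `n`. -/
def GenSet (n : ℕ) (E : ℝ) : Prop := ∃ C : ℝ, ∀ N : ℝ, 1 ≤ N → ∃ S : Set ℤ[X], S.Finite ∧
  (S.ncard : ℝ) ≤ C * N ^ E ∧ (∀ P ∈ S, P.Monic ∧ P.natDegree = n) ∧
  ∀ (K : Type) [Field K] [NumberField K], finrank ℚ K = n → |(discr K : ℝ)| ≤ N →
    ∃ y : 𝓞 K, IntermediateField.adjoin ℚ {(y : K)} = ⊤ ∧ minpoly ℤ (y : K) ∈ S

/-- SBS: a basis of the field which consists of small algebraic integers. -/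
def SbsStmt : Prop := ∀ n : ℕ, 0 < n → ∃ C : ℝ, 1 ≤ C ∧
  ∀ (K : Type) [Field K] [NumberField K], finrank ℚ K = n →
    ∃ b : Fin n → 𝓞 K, LinearIndependent ℚ (fun i => (b i : K)) ∧
      ∀ (i : Fin n) (φ : K →+* ℂ), ‖φ (b i : K)‖ ≤ C * |(discr K : ℝ)| ^ ((1 : ℝ) / n)

/-- The polynomials `P` have the Jacobian matrix `1` at the points `z`. -/
def Unit1 {n r : ℕ} (P : Fin n × Fin r → MvPolynomial (Fin r) ℤ) (z : Fin n → Fin r → ℤ) : Prop :=
  ∀ (a : Fin n × Fin r) (t : Fin n) (j : Fin r),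
    MvPolynomial.eval (z t) (MvPolynomial.pderiv j (P a)) = if a = (t, j) then 1 else 0

/-- HER: Hermite interpolation on the cube. -/
def HerStmt : Prop := ∀ n r : ℕ, n ≤ 2 ^ r → ∃ (P : Fin n × Fin r → MvPolynomial (Fin r) ℤ)
  (z : Fin n → Fin r → ℤ), (∀ a, (P a).totalDegree ≤ 2 * r + 1) ∧ Unit1 P z

/-- The Jacobian matrix of the power sums `∑ t, P a (X t)`. -/
def jac {n r : ℕ} {A : Type} [CommRing A] (P : Fin n × Fin r → MvPolynomial (Fin r) ℤ)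
    (X : Fin n → Fin r → A) : Matrix (Fin n × Fin r) (Fin n × Fin r) A :=
  Matrix.of fun a b => MvPolynomial.aeval (X b.1) (MvPolynomial.pderiv b.2 (P a))

/-- CHO: small combinations of a basis with a nonzero Jacobian determinant. -/
def ChoStmt : Prop := ∀ (n r : ℕ) (P : Fin n × Fin r → MvPolynomial (Fin r) ℤ)
  (z : Fin n → Fin r → ℤ), 0 < n → Unit1 P z → ∃ B : ℕ, ∀ (K : Type) [Field K] [NumberField K],
    finrank ℚ K = n → ∀ (e : Fin n ≃ (K →+* ℂ)) (b : Fin n → 𝓞 K),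
    LinearIndependent ℚ (fun i => (b i : K)) → ∃ c : Fin r → Fin n → ℕ, (∀ i k, c i k ≤ B) ∧
      (jac P fun t i => ∑ k, (c i k : ℂ) * e t (b k : K)).det ≠ 0

/-- TRC: power sums of conjugates are integers. -/
def TrcStmt : Prop := ∀ (n r : ℕ) (Q : MvPolynomial (Fin r) ℤ) (K : Type) [Field K]
  [NumberField K] (e : Fin n ≃ (K →+* ℂ)) (x : Fin r → 𝓞 K),
  ∃ T : ℤ, ∑ t, MvPolynomial.aeval (fun i => e t (x i : K)) Q = (T : ℂ)

/-- DSQ: the square of the Jacobian determinant is an integer. -/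
def DsqStmt : Prop := ∀ (n r : ℕ) (P : Fin n × Fin r → MvPolynomial (Fin r) ℤ) (K : Type)
  [Field K] [NumberField K] (e : Fin n ≃ (K →+* ℂ)) (x : Fin r → 𝓞 K),
  ∃ T : ℤ, (jac P fun t i => e t (x i : K)).det ^ 2 = (T : ℂ)

/-- BDV: values of polynomials. -/
def BdvStmt : Prop := ∀ (r : ℕ) (Q : MvPolynomial (Fin r) ℤ), ∃ C : ℝ, ∀ (R : ℝ)
  (X : Fin r → ℂ), 1 ≤ R → (∀ i, ‖X i‖ ≤ R) →
    ‖MvPolynomial.aeval X Q‖ ≤ C * R ^ Q.totalDegree

/-- HEN: solutions with an invertible Jacobian matrix modulo a prime ideal are determined by their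
residues. -/
def HenStmt : Prop := ∀ (n r : ℕ) (P : Fin n × Fin r → MvPolynomial (Fin r) ℤ) (A : Type)
  [CommRing A] [IsDomain A] (M : Ideal A), M.IsPrime → ∀ X Y : Fin n → Fin r → A,
  (∀ t i, Y t i - X t i ∈ M) → (jac P X).det ∉ M →
  (∀ a, ∑ t, MvPolynomial.aeval (Y t) (P a) = ∑ t, MvPolynomial.aeval (X t) (P a)) → Y = X

/-- RSD: the residues of the algebraic integers of degree `n`. -/
def RsdStmt : Prop := ∀ (n p : ℕ), 0 < n → p.Prime → ∀ M : Ideal OO, M.IsMaximal → (p : OO) ∈ M →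
  {y : OO ⧸ M | ∃ x : OO, Ideal.Quotient.mk M x = y ∧
    ∃ g : ℤ[X], g.Monic ∧ g.natDegree = n ∧ aeval x g = 0}.Finite ∧
  {y : OO ⧸ M | ∃ x : OO, Ideal.Quotient.mk M x = y ∧
    ∃ g : ℤ[X], g.Monic ∧ g.natDegree = n ∧ aeval x g = 0}.ncard ≤ n * p ^ n

/-- PRM: a small prime which does not divide a given number. -/
def PrmStmt : Prop := ∀ ε : ℝ, 0 < ε → ∃ C : ℝ, ∀ N : ℕ, N ≠ 0 →
  ∃ p : ℕ, p.Prime ∧ ¬ p ∣ N ∧ (p : ℝ) ≤ C * (N : ℝ) ^ ε

/-- MAX: maximal ideals of the ring of algebraic integers. -/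
def MaxStmt : Prop := ∀ p : ℕ, p.Prime → ∃ M : Ideal OO, M.IsMaximal ∧ (p : OO) ∈ M ∧
  ∀ a : ℤ, (a : OO) ∈ M → (p : ℤ) ∣ a

/-- The systems of `n` points with coordinates algebraic integers of degree `n` and of size at most
`R`, whose power sums are integers and whose Jacobian determinant is not zero and has an integral
square. -/
def XS (n r : ℕ) (P : Fin n × Fin r → MvPolynomial (Fin r) ℤ) (R : ℝ) :
    Set (Fin n → Fin r → OO) :=
  {X | (∀ t i, ‖(X t i : ℂ)‖ ≤ R) ∧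
    (∀ t i, ∃ g : ℤ[X], g.Monic ∧ g.natDegree = n ∧ aeval (X t i) g = 0) ∧
    (∀ a, ∃ T : ℤ, ∑ t, MvPolynomial.aeval (X t) (P a) = (T : OO)) ∧
    (jac P X).det ≠ 0 ∧ ∃ T : ℤ, (jac P X).det ^ 2 = (T : OO)}

/-- CNT: the number of these systems. -/
def CntStmt : Prop := ∀ (n r d : ℕ) (P : Fin n × Fin r → MvPolynomial (Fin r) ℤ), 0 < n →
  (∀ a, (P a).totalDegree ≤ d) → ∀ ε : ℝ, 0 < ε → ∃ C : ℝ, ∀ R : ℝ, 1 ≤ R →
    (XS n r P R).Finite ∧ ((XS n r P R).ncard : ℝ) ≤ C * R ^ ((d : ℝ) * r * n + ε)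

/-- GN2: a small combination of the coordinates generates the field. -/
def Gn2Stmt : Prop := ∀ n r : ℕ, 0 < r → ∃ B : ℕ, ∀ (P : Fin n × Fin r → MvPolynomial (Fin r) ℤ)
  (K : Type) [Field K] [NumberField K] (e : Fin n ≃ (K →+* ℂ)) (x : Fin r → 𝓞 K),
  (jac P fun t i => e t (x i : K)).det ≠ 0 → ∃ d : Fin r → ℕ, (∀ i, d i ≤ B) ∧
    IntermediateField.adjoin ℚ {((∑ i, (d i : 𝓞 K) * x i : 𝓞 K) : K)} = ⊤ ∧
    (minpoly ℤ ((∑ i, (d i : 𝓞 K) * x i : 𝓞 K) : K)).map (Int.castRingHom ℂ) =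
      ∏ t, (X - C (∑ i, (d i : ℂ) * e t (x i : K)))

/-- GST: the number of fields. -/
def GstStmt : Prop := ∀ n r : ℕ, 0 < n → 0 < r → n ≤ 2 ^ r → ∀ ε : ℝ, 0 < ε →
  GenSet n ((r : ℝ) * (2 * r + 1) + ε)

end

end Pool.Agent.THX
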